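import Pool.Agent.Y822.G.Stm

/-!
Job GL-LOC: comparison of local densities.
-/

set_option autoImplicit false

namespace Pool.Agent.Y77.GL

open Finset Pool.Agent.Y822.G

theorem exp_le_one_sub {s : ℝ} (h1 : s ≤ 1 / 2) :
    Real.exp (1 - (1 - s)⁻¹) ≤ 1 - s := by
  have hpos : 0 < 1 - s := by linarith
  have h2 := Real.exp_le_exp.2 (Real.one_sub_inv_le_log_of_pos hpos)
  rwa [Real.exp_log hpos] at h2

theorem ineq1 {s : ℝ} (_h0 : 0 ≤ s) (h1 : s ≤ 1 / 2) :
    Real.exp (-s) ≤ (1 - s) * Real.exp (2 * s ^ 2) := by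
  have hpos : 0 < 1 - s := by linarith
  have h2 : -s - 2 * s ^ 2 ≤ 1 - (1 - s)⁻¹ := by
    have h3 : (1 - s)⁻¹ ≤ 1 + s + 2 * s ^ 2 := by
      rw [inv_le_iff_one_le_mul₀ hpos]
      nlinarith [mul_nonneg (sq_nonneg s) (by linarith : 0 ≤ 1 - 2 * s)]
    linarith
  have h3 : Real.exp (-s) = Real.exp (-s - 2 * s ^ 2) * Real.exp (2 * s ^ 2) := by
    rw [← Real.exp_add]
    congr 1
    ring
  rw [h3]
  exact mul_le_mul_of_nonneg_right ((Real.exp_le_exp.2 h2).trans (exp_le_one_sub h1))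
    (Real.exp_pos _).le

theorem ineq2 {s : ℝ} (h0 : 0 ≤ s) (h1 : s ≤ 1 / 2) : 1 ≤ (1 - s) * Real.exp (2 * s) := by
  have hpos : 0 < 1 - s := by linarith
  have h2 : -(2 * s) ≤ 1 - (1 - s)⁻¹ := by
    have h3 : (1 - s)⁻¹ ≤ 1 + 2 * s := by
      rw [inv_le_iff_one_le_mul₀ hpos]
      nlinarith [mul_nonneg h0 (by linarith : 0 ≤ 1 - 2 * s)]
    linarith
  have h3 := mul_le_mul_of_nonneg_right ((Real.exp_le_exp.2 h2).trans (exp_le_one_sub h1))
    (Real.exp_pos (2 * s)).le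
  rwa [← Real.exp_add, neg_add_cancel, Real.exp_zero] at h3

theorem weier {ι : Type} (T : Finset ι) (x : ι → ℝ) (h0 : ∀ a ∈ T, 0 ≤ x a)
    (h1 : ∀ a ∈ T, x a ≤ 1) : 1 - ∑ a ∈ T, x a ≤ ∏ a ∈ T, (1 - x a) := by
  classical
  induction T using Finset.induction_on with
  | empty => simp
  | insert b T hb ih =>
    have ih' := ih (fun a ha => h0 a (mem_insert_of_mem ha)) (fun a ha => h1 a (mem_insert_of_mem ha))
    have hb0 := h0 b (mem_insert_self _ _)
    have hb1 := h1 b (mem_insert_self _ _)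
    have hs : 0 ≤ ∑ a ∈ T, x a := sum_nonneg fun a ha => h0 a (mem_insert_of_mem ha)
    rw [sum_insert hb, prod_insert hb]
    have h2 : (1 - x b) * (1 - ∑ a ∈ T, x a) ≤ (1 - x b) * ∏ a ∈ T, (1 - x a) :=
      mul_le_mul_of_nonneg_left ih' (by linarith)
    nlinarith [mul_nonneg hb0 hs]

theorem prod_le_exp {ι : Type} (T : Finset ι) (x : ι → ℝ) (h1 : ∀ a ∈ T, x a ≤ 1) :
    ∏ a ∈ T, (1 - x a) ≤ Real.exp (-∑ a ∈ T, x a) := by
  rw [← sum_neg_distrib, Real.exp_sum]
  refine prod_le_prod (fun a ha => by linarith [h1 a ha]) fun a _ => ?_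
  exact Real.one_sub_le_exp_neg _

theorem filter_QR {ι : Type} (R : ι → ℕ → ℕ → Prop) (T : Finset ι) (p : ℕ) [DecidableEq ι]
    [DecidablePred (fun r => QR R T p r)] [∀ a, DecidablePred (fun r => R a p r)] :
    (range p).filter (fun r => QR R T p r) =
      T.biUnion fun a => (range p).filter fun r => R a p r := by
  ext r
  rw [mem_filter, mem_biUnion]
  constructor
  · rintro ⟨h1, a, ha, h2⟩
    exact ⟨a, ha, mem_filter.2 ⟨h1, h2⟩⟩
  · rintro ⟨a, ha, h1⟩
    exact ⟨(mem_filter.1 h1).1, a, ha, (mem_filter.1 h1).2⟩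

theorem rho_QR_le {ι : Type} (R : ι → ℕ → ℕ → Prop) (T : Finset ι) (p : ℕ) :
    rho (QR R T) p ≤ ∑ a ∈ T, rho (R a) p := by
  classical
  unfold rho
  rw [filter_QR]
  exact card_biUnion_le

theorem rho_QR_eq {ι : Type} (R : ι → ℕ → ℕ → Prop) (T : Finset ι) (p : ℕ)
    (h : ∀ a ∈ T, ∀ a' ∈ T, a ≠ a' → ∀ n : ℕ, R a p n → ¬ R a' p n) :
    rho (QR R T) p = ∑ a ∈ T, rho (R a) p := by
  classical
  unfold rho
  rw [filter_QR]
  refine card_biUnion fun a ha a' ha' hne => ?_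
  refine disjoint_left.2 ?_
  intro n hn hn'
  exact h a ha a' ha' hne n (mem_filter.1 hn).2 (mem_filter.1 hn').2

theorem loc : LocStm := by
  classical
  intro ι R T m q y z Z hy hm hB hZ hdis
  set B : ℝ := (m * T.card : ℝ) with hBd
  have hyR : (0 : ℝ) < y := by exact_mod_cast hy
  have hB0 : 0 ≤ B := by positivity
  have hB4 : 4 * B ≤ y := by
    rw [hBd]
    exact_mod_cast hB
  have hBy : B / y ≤ 1 / 4 := by
    rw [div_le_iff₀ hyR]
    linarith
  rw [prod_comm]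
  -- facts for one prime
  have hpy : ∀ p ∈ pb y z, (y : ℝ) < p := by
    intro p hp
    unfold pb at hp
    rw [mem_filter, mem_Ioc] at hp
    exact_mod_cast hp.1.1
  have hsum : ∀ p ∈ pb y z, (∑ a ∈ T, (rho (R a) p : ℝ)) ≤ B := by
    intro p hp
    calc (∑ a ∈ T, (rho (R a) p : ℝ)) ≤ ∑ _a ∈ T, (m : ℝ) :=
          sum_le_sum fun a ha => by exact_mod_cast hm a ha p hp
      _ = B := by rw [sum_const, nsmul_eq_mul, hBd, mul_comm]
  have hnu : ∀ p, (rho (QR R T) p : ℝ) ≤ ∑ a ∈ T, (rho (R a) p : ℝ) := by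
    intro p
    exact_mod_cast rho_QR_le R T p
  have hfac : ∀ p ∈ pb y z, B / p ≤ B / y ∧ (rho (QR R T) p : ℝ) / p ≤ B / p ∧
      (∑ a ∈ T, (rho (R a) p : ℝ) / p) ≤ B / p ∧ (∀ a ∈ T, (rho (R a) p : ℝ) / p ≤ 1) ∧
      0 ≤ (rho (QR R T) p : ℝ) / p := by
    intro p hp
    have hp0 : (0 : ℝ) < p := hyR.trans (hpy p hp)
    have e1 : B / p ≤ B / y := div_le_div_of_nonneg_left hB0 hyR (hpy p hp).le
    have e2 : (∑ a ∈ T, (rho (R a) p : ℝ) / p) ≤ B / p := by
      rw [← sum_div]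
      exact div_le_div_of_nonneg_right (hsum p hp) hp0.le
    refine ⟨e1, div_le_div_of_nonneg_right ((hnu p).trans (hsum p hp)) hp0.le, e2, ?_,
      by positivity⟩
    intro a ha
    have e3 : (rho (R a) p : ℝ) / p ≤ ∑ a ∈ T, (rho (R a) p : ℝ) / p :=
      single_le_sum (f := fun a => (rho (R a) p : ℝ) / p) (fun b _ => by positivity) ha
    linarith
  have hx0 : ∀ p, ∀ a ∈ T, 0 ≤ (rho (R a) p : ℝ) / p := fun p a _ => by positivity
  have hnu1 : ∀ p ∈ pb y z, 0 ≤ 1 - (rho (QR R T) p : ℝ) / p := by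
    intro p hp
    obtain ⟨e1, e2, -, -, -⟩ := hfac p hp
    linarith
  have hP0 : 0 ≤ ∏ p ∈ pb y z, (1 - (rho (QR R T) p : ℝ) / p) := prod_nonneg hnu1
  have hcard : (((pb y z).filter fun p => p ∈ Z).card : ℝ) ≤ q := by
    have e1 : ((pb y z).filter fun p => p ∈ Z).card ≤ Z.card :=
      card_le_card fun p hp => (mem_filter.1 hp).2
    exact_mod_cast e1.trans hZ
  constructor
  · -- lower bound
    have e1 : ∏ p ∈ pb y z, ((if p ∈ Z then 1 - B / y else 1) *
        (1 - (rho (QR R T) p : ℝ) / p)) ≤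
        ∏ p ∈ pb y z, ∏ a ∈ T, (1 - (rho (R a) p : ℝ) / p) := by
      refine prod_le_prod (fun p hp => ?_) fun p hp => ?_
      · refine mul_nonneg ?_ (hnu1 p hp)
        split_ifs
        · linarith
        · exact zero_le_one
      · obtain ⟨f1, f2, f3, f4, f5⟩ := hfac p hp
        have hw := weier T (fun a => (rho (R a) p : ℝ) / p) (hx0 p) f4
        split_ifs with hpZ
        · have g1 : (1 - B / y) * (1 - (rho (QR R T) p : ℝ) / p) ≤ (1 - B / y) * 1 :=
            mul_le_mul_of_nonneg_left (by linarith) (by linarith)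
          linarith
        · rw [one_mul]
          have g1 : (rho (QR R T) p : ℝ) / p = ∑ a ∈ T, (rho (R a) p : ℝ) / p := by
            rw [rho_QR_eq R T p (hdis p hp hpZ), Nat.cast_sum, sum_div]
          rw [g1]
          exact hw
    refine le_trans ?_ e1
    rw [prod_mul_distrib]
    refine mul_le_mul_of_nonneg_right ?_ hP0
    rw [← prod_filter, prod_const]
    have e2 := one_add_mul_le_pow (a := -(B / y)) (by linarith)
      (((pb y z).filter fun p => p ∈ Z).card)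
    rw [← sub_eq_add_neg] at e2
    refine le_trans ?_ e2
    have e3 : (((pb y z).filter fun p => p ∈ Z).card : ℝ) * (B / y) ≤ q * (B / y) :=
      mul_le_mul_of_nonneg_right hcard (by positivity)
    have e4 : q * (B / y) ≤ (4 * B ^ 2 + 2 * B * q) / y := by
      rw [← mul_div_assoc]
      apply div_le_div_of_nonneg_right _ hyR.le
      nlinarith [sq_nonneg B, mul_nonneg hB0 (Nat.cast_nonneg (α := ℝ) q)]
    linarith
  · -- upper bound
    have e1 : ∏ p ∈ pb y z, ∏ a ∈ T, (1 - (rho (R a) p : ℝ) / p) ≤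
        ∏ p ∈ pb y z, (Real.exp (2 * B ^ 2 * ((p : ℝ) ^ 2)⁻¹ +
          (if p ∈ Z then 2 * B / y else 0)) * (1 - (rho (QR R T) p : ℝ) / p)) := by
      refine prod_le_prod (fun p hp => ?_) fun p hp => ?_
      · exact prod_nonneg fun a ha => by linarith [(hfac p hp).2.2.2.1 a ha]
      · obtain ⟨f1, f2, f3, f4, f5⟩ := hfac p hp
        have hp0 : (0 : ℝ) < p := hyR.trans (hpy p hp)
        have hsq : 0 ≤ 2 * B ^ 2 * ((p : ℝ) ^ 2)⁻¹ := by positivity
        set s := (rho (QR R T) p : ℝ) / p with hs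
        split_ifs with hpZ
        · have g1 : ∏ a ∈ T, (1 - (rho (R a) p : ℝ) / p) ≤ 1 :=
            prod_le_one (fun a ha => by linarith [f4 a ha]) fun a ha => by
              linarith [hx0 p a ha]
          have g2 := ineq2 f5 (by linarith)
          have g3 : Real.exp (2 * s) ≤ Real.exp (2 * B ^ 2 * ((p : ℝ) ^ 2)⁻¹ + 2 * B / y) := by
            apply Real.exp_le_exp.2
            rw [mul_div_assoc]
            linarith
          have g4 : (1 - s) * Real.exp (2 * s) ≤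
              (1 - s) * Real.exp (2 * B ^ 2 * ((p : ℝ) ^ 2)⁻¹ + 2 * B / y) :=
            mul_le_mul_of_nonneg_left g3 (by linarith)
          rw [mul_comm]
          linarith
        · have g1 := prod_le_exp T (fun a => (rho (R a) p : ℝ) / p) f4
          have g0 : s = ∑ a ∈ T, (rho (R a) p : ℝ) / p := by
            rw [hs, rho_QR_eq R T p (hdis p hp hpZ), Nat.cast_sum, sum_div]
          rw [← g0] at g1
          have g2 := ineq1 f5 (by linarith)
          have g3 : Real.exp (2 * s ^ 2) ≤ Real.exp (2 * B ^ 2 * ((p : ℝ) ^ 2)⁻¹ + 0) := by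
            apply Real.exp_le_exp.2
            have g5 : s ^ 2 ≤ (B / p) ^ 2 := pow_le_pow_left₀ f5 f2 2
            have g6 : (B / p) ^ 2 = B ^ 2 * ((p : ℝ) ^ 2)⁻¹ := by
              rw [div_pow, div_eq_mul_inv]
            rw [g6] at g5
            linarith
          have g4 : (1 - s) * Real.exp (2 * s ^ 2) ≤
              (1 - s) * Real.exp (2 * B ^ 2 * ((p : ℝ) ^ 2)⁻¹ + 0) :=
            mul_le_mul_of_nonneg_left g3 (by linarith)
          rw [mul_comm]
          linarith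
    refine e1.trans ?_
    rw [prod_mul_distrib]
    refine mul_le_mul_of_nonneg_right ?_ hP0
    rw [← Real.exp_sum]
    apply Real.exp_le_exp.2
    rw [sum_add_distrib, ← mul_sum, ← sum_filter, sum_const, nsmul_eq_mul]
    have e2 : ∑ p ∈ pb y z, ((p : ℝ) ^ 2)⁻¹ ≤ 1 / y := by
      have g1 : ∑ p ∈ pb y z, ((p : ℝ) ^ 2)⁻¹ ≤ ∑ p ∈ Ioc y z, ((p : ℝ) ^ 2)⁻¹ :=
        sum_le_sum_of_subset_of_nonneg (filter_subset _ _) fun _ _ _ => by positivity
      rcases le_total y z with hyz | hyz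
      · have g2 := sum_Ioc_inv_sq_le_sub (α := ℝ) (k := y) (n := z) (by omega) hyz
        have g3 : (0 : ℝ) ≤ (z : ℝ)⁻¹ := by positivity
        rw [one_div]
        linarith
      · rw [Ioc_eq_empty (by omega), sum_empty] at g1
        have : (0 : ℝ) ≤ 1 / y := by positivity
        linarith
    have e3 : 2 * B ^ 2 * ∑ p ∈ pb y z, ((p : ℝ) ^ 2)⁻¹ ≤ 2 * B ^ 2 * (1 / y) :=
      mul_le_mul_of_nonneg_left e2 (by positivity)
    have e4 : (((pb y z).filter fun p => p ∈ Z).card : ℝ) * (2 * B / y) ≤ q * (2 * B / y) :=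
      mul_le_mul_of_nonneg_right hcard (by positivity)
    have e5 : (4 * B ^ 2 + 2 * B * q) / y =
        2 * B ^ 2 * (1 / y) + q * (2 * B / y) + 2 * B ^ 2 / y := by
      field_simp
      ring
    have e6 : 0 ≤ 2 * B ^ 2 / y := by positivity
    rw [e5]
    linarith

end Pool.Agent.Y77.GL
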